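import Pool.Agent.UMG.StmtsB

/-!
# Squad UMG (MP_34c13a_lc), row PTF
-/

set_option autoImplicit false

namespace Pool.Agent.UMG.B.H64

open Finset Pool.Agent.UMG Pool.Agent.UMG.B

theorem sizes (c : Code) : (∀ x ∈ c, 1 ≤ x.1 ∧ ∀ i ∈ x.2, 1 ≤ i) → ∀ v, ∀ b ∈ bund v c,
    1 ≤ bsz b ∧ bsz b ≤ (c.map (fun x => x.1 * x.2.sum)).sum := by
  induction c with
  | nil =>
    intro _ v b hb
    unfold bund at hb
    exact absurd hb List.not_mem_nil
  | cons a c ih =>
    obtain ⟨l, p⟩ := a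
    intro h v b hb
    unfold bund at hb
    rw [List.map_cons, List.sum_cons]
    rcases List.mem_append.1 hb with hb | hb
    · obtain ⟨i, hi, rfl⟩ := List.mem_map.1 hb
      have h1 := h (l, p) List.mem_cons_self
      have h2 : 1 ≤ i := h1.2 i hi
      have h3 : 1 ≤ l := h1.1
      have h4 : i ≤ p.sum := List.le_sum_of_mem hi
      have h5 : bsz (v, l, i) = l * i := rfl
      rw [h5]
      refine ⟨Nat.mul_le_mul h3 h2, ?_⟩
      have h6 : l * i ≤ l * p.sum := Nat.mul_le_mul_left l h4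
      exact h6.trans (Nat.le_add_right _ _)
    · have h1 := ih (fun x hx => h x (List.mem_cons_of_mem _ hx)) (v + l) b hb
      exact ⟨h1.1, h1.2.trans (Nat.le_add_left _ _)⟩

theorem dbl (a b : ℕ) : a + a = 2 * b ↔ b = a := by omega

/-- **PTF** -/
theorem ptf (edg' : EdgStmt) (trb : TrbStmt) : PtfStmt := by
  intro n M B c hc
  obtain ⟨e, f, h1, h2⟩ := trb c 0
  obtain ⟨rfl, rfl, hpos⟩ := hc
  have hsz := sizes c hpos 0
  have hS : SN (fun h => (e (nuc c h) : ℕ)) (gc c) (nuB (bund 0 c)) (gB (bund 0 c)) :=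
    ⟨f, fun h => by rw [h1, zero_add], h2⟩
  have hE := hS.eqD.trans (edg' (c.map (fun x => x.1 * x.2.sum)).sum (bund 0 c) hsz)
  have hcard := hE.card (fun q => ∃ σ : Fin ((c.map (fun x => x.1)).sum) ≃
    Fin ((c.map (fun x => x.1)).sum), ∀ v w : Fin ((c.map (fun x => x.1)).sum),
      q v w = tw B (σ v) (σ w))
  have hL : PhB B (Vc c) (Hc c) (nuc c) (gc c) =
      Nat.card {m : Mt (gc c) // ∃ σ : Fin ((c.map (fun x => x.1)).sum) ≃
        Fin ((c.map (fun x => x.1)).sum), ∀ v w : Fin ((c.map (fun x => x.1)).sum),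
          QQ (fun h => (e (nuc c h) : ℕ)) m.1 v w = tw B (σ v) (σ w)} := by
    unfold PhB
    have h3 : ∀ (m : Hc c → Hc c) (v w : Vc c),
        QQ (fun h => (e (nuc c h) : ℕ)) m (e v) (e w) = QQ (nuc c) m v w := by
      intro m v w
      unfold QQ
      refine Nat.card_congr (Equiv.subtypeEquivRight fun x => ?_)
      have h4 : ∀ a b : Vc c, ((e a : ℕ) = (e b : ℕ)) ↔ a = b := by
        intro a b
        rw [Fin.val_inj, e.injective.eq_iff]
      exact and_congr (h4 _ _) (h4 _ _)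
    refine Nat.card_congr ⟨fun m => ⟨⟨m.1, m.2.1⟩, ?_⟩, fun m => ⟨m.1.1, m.1.2, ?_⟩,
      fun _ => rfl, fun _ => rfl⟩
    · obtain ⟨σ, hσ⟩ := m.2.2
      refine ⟨e.symm.trans σ, fun v w => ?_⟩
      have h5 := h3 m.1 (e.symm v) (e.symm w)
      rw [e.apply_symm_apply, e.apply_symm_apply] at h5
      rw [h5, hσ]
      rfl
    · obtain ⟨σ, hσ⟩ := m.2
      refine ⟨e.trans σ, fun v w => ?_⟩
      rw [← h3 m.1.1 v w, hσ]
      rfl
  rw [hL, hcard]
  refine Nat.card_congr (Equiv.subtypeEquivRight fun x => ?_)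
  rw [← edg_eq]
  unfold Iso
  refine exists_congr fun σ => forall_congr' fun v => forall_congr' fun w => ?_
  unfold Qc tw gr
  by_cases hvw : v = w
  · subst hvw
    rw [if_pos rfl, if_pos rfl]
    exact dbl _ _
  · have h6 : ¬ σ v = σ w := fun h => hvw (σ.injective h)
    rw [if_neg hvw, if_neg h6]
    exact eq_comm

end Pool.Agent.UMG.B.H64
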