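import Pool.Agent.UMG.CStmts

/-!
# Squad UMG (MP_34c13a_lc), block C, row UEB
-/

set_option autoImplicit false

namespace Pool.Agent.UMG.C.H64

open Finset Pool.Agent.UMG Pool.Agent.UMG.C

theorem pick_uidx (w : ℕ → ℕ) (m u : ℕ) : pick m w u = uidx w m u := by
  unfold pick uidx
  rw [Finset.card_filter]

/-- one step -/
theorem stE_spec (x : ℕ → ℕ) (l A N : ℕ) (s : ℕ × ℕ × ℕ)
    (h : s.2.2 < s.2.1 * (Eint x l s.1 * A)) (hN : l * s.1 < N) (h0 : s.1 ≠ 0) :
    (stE x l A s).1 ≤ s.1 - 1 ∧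
      (stE x l A s).2.1 * wb x N ^ (stE x l A s).1 ≤ s.2.1 * wb x N ^ s.1 ∧
      (stE x l A s).2.2 < (stE x l A s).2.1 * (Eint x l (stE x l A s).1 * A) := by
  obtain ⟨m', W, u⟩ := s
  obtain ⟨m, rfl⟩ : ∃ m, m' = m + 1 := Nat.exists_eq_succ_of_ne_zero h0
  simp only at h hN
  obtain ⟨w, hw⟩ : ∃ w : ℕ → ℕ, w = fun i => m.descFactorial i * vE x l A m W i := ⟨_, rfl⟩
  have hsum : ∑ i ∈ range (m + 1), w i = W * (Eint x l (m + 1) * A) := by
    rw [Eint_succ, hw, Finset.sum_mul, Finset.mul_sum]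
    refine Finset.sum_congr rfl fun i _ => ?_
    simp only [vE]
    ring
  obtain ⟨i, hi⟩ : ∃ i, i = pick (m + 1) w u := ⟨_, rfl⟩
  have hspec := uidx_spec (w := w) (n := m + 1) (u := u) (by rw [hsum]; exact h)
  rw [← pick_uidx, ← hi] at hspec
  obtain ⟨h1, h2, -⟩ := hspec
  unfold urem at h2
  rw [← pick_uidx, ← hi] at h2
  have hst : stE x l A (m + 1, W, u) =
      (m - i, W * x (l * (i + 1)), (u - cum w i) % vE x l A m W i) := by
    unfold stE
    rw [if_neg h0]
    simp only [Nat.add_sub_cancel]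
    rw [← hw, ← hi]
  rw [hst]
  have hv : 0 < vE x l A m W i := by
    rcases Nat.eq_zero_or_pos (vE x l A m W i) with h3 | h3
    · have h4 : w i = 0 := by rw [hw]; simp only [h3, mul_zero]
      omega
    · exact h3
  refine ⟨by simp only; omega, ?_, ?_⟩
  · simp only
    have h3 : x (l * (i + 1)) ≤ wb x N := by
      refine le_wb (lt_of_le_of_lt (Nat.mul_le_mul_left l ?_) hN)
      omega
    have h4 : wb x N ^ (m - i + 1) ≤ wb x N ^ (m + 1) :=
      Nat.pow_le_pow_right (wb_pos x N) (by omega)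
    calc W * x (l * (i + 1)) * wb x N ^ (m - i)
        ≤ W * wb x N * wb x N ^ (m - i) :=
          Nat.mul_le_mul_right _ (Nat.mul_le_mul_left _ h3)
      _ = W * wb x N ^ (m - i + 1) := by rw [pow_succ]; ring
      _ ≤ W * wb x N ^ (m + 1) := Nat.mul_le_mul_left _ h4
  · simp only
    have h3 : vE x l A m W i = W * x (l * (i + 1)) * (Eint x l (m - i) * A) := rfl
    rw [← h3]
    exact Nat.mod_lt _ hv

/-- **UEB** -/
theorem ueb : UebStmt := by
  intro x l A k W u N t hu hN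
  induction t with
  | zero => exact ⟨le_rfl, le_rfl, hu⟩
  | succ t ih =>
    obtain ⟨i1, i2, i3⟩ := ih
    obtain ⟨s, hs⟩ : ∃ s, s = sE x l A (k, W, u) t := ⟨_, rfl⟩
    rw [← hs] at i1 i2 i3
    have e : sE x l A (k, W, u) (t + 1) = stE x l A s := by rw [hs]; rfl
    rw [e]
    by_cases h0 : s.1 = 0
    · have e2 : stE x l A s = s := by
        unfold stE
        rw [if_pos h0]
      rw [e2]
      exact ⟨by omega, i2, i3⟩
    · have hN' : l * s.1 < N :=
        lt_of_le_of_lt (Nat.mul_le_mul_left l (i1.trans (Nat.sub_le _ _))) hN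
      obtain ⟨j1, j2, j3⟩ := stE_spec x l A N s i3 hN' h0
      exact ⟨by omega, j2.trans i2, j3⟩

end Pool.Agent.UMG.C.H64
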