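import Pool.Agent.UMG.StmtsD

/-!
# Squad UMG (MP_34c13a_lc), row FSP
-/

set_option autoImplicit false

namespace Pool.Agent.UMG.D.H64

open Finset

theorem sum_block (A B : ℕ) (f : ℕ → ℕ) :
    ∑ r ∈ range (A * B), f r = ∑ u ∈ range B, ∑ r ∈ range A, f (A * u + r) := by
  induction B with
  | zero => simp
  | succ B ih => rw [Nat.mul_succ, sum_range_add, ih, sum_range_succ]

theorem fst_succ (h : ℕ → ℕ) (L R r : ℕ) : fst h L (R + 1) r =
    if fst h L R r ≠ 0 then fst h L R r else h (r / 2 ^ (L * R) % 2 ^ L) := rfl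

theorem fst_add (h : ℕ → ℕ) (L R u r : ℕ) (R' : ℕ) (hR : R' ≤ R) :
    fst h L R' (2 ^ (L * R) * u + r) = fst h L R' r := by
  induction R' with
  | zero => rfl
  | succ t ih =>
    rw [fst_succ, fst_succ, ih (by omega)]
    have e : (2 ^ (L * R) * u + r) / 2 ^ (L * t) % 2 ^ L = r / 2 ^ (L * t) % 2 ^ L := by
      obtain ⟨s, rfl⟩ : ∃ s, R = t + (s + 1) := ⟨R - t - 1, by omega⟩
      have e1 : 2 ^ (L * (t + (s + 1))) * u + r =
          2 ^ (L * t) * (2 ^ L * (2 ^ (L * s) * u)) + r := by
        rw [Nat.mul_add, Nat.mul_succ, pow_add, pow_add]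
        ring
      rw [e1, Nat.mul_add_div (by positivity), Nat.mul_add_mod]
    rw [e]

theorem digit (L R u r : ℕ) (hu : u < 2 ^ L) (hr : r < 2 ^ (L * R)) :
    (2 ^ (L * R) * u + r) / 2 ^ (L * R) % 2 ^ L = u := by
  rw [Nat.mul_add_div (by positivity), Nat.div_eq_of_lt hr, add_zero, Nat.mod_eq_of_lt hu]

open Classical in
theorem rec_step (h : ℕ → ℕ) (L R : ℕ) (P : ℕ → Prop) (hP : ¬ P 0) :
    ((range (2 ^ (L * (R + 1)))).filter (fun r => P (fst h L (R + 1) r))).card =
      2 ^ L * ((range (2 ^ (L * R))).filter (fun r => P (fst h L R r))).card +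
        ((range (2 ^ L)).filter (fun u => P (h u))).card *
          (∑ r ∈ range (2 ^ (L * R)), if fst h L R r = 0 then 1 else 0) := by
  rw [card_filter, Nat.mul_succ, pow_add, sum_block, card_filter, card_filter]
  have e : ∀ u ∈ range (2 ^ L), ∑ r ∈ range (2 ^ (L * R)),
      (if P (fst h L (R + 1) (2 ^ (L * R) * u + r)) then 1 else 0) =
      (∑ r ∈ range (2 ^ (L * R)), if P (fst h L R r) then 1 else 0) +
        (if P (h u) then 1 else 0) * ∑ r ∈ range (2 ^ (L * R)), if fst h L R r = 0 then 1 else 0 := by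
    intro u hu
    rw [Finset.mul_sum, ← Finset.sum_add_distrib]
    refine Finset.sum_congr rfl fun r hr => ?_
    rw [fst_succ, fst_add h L R u r R le_rfl, digit L R u r (mem_range.1 hu) (mem_range.1 hr)]
    by_cases h0 : fst h L R r = 0
    · rw [if_neg (by simp [h0] : ¬ fst h L R r ≠ 0), if_pos h0, h0, if_neg hP]
      simp
    · rw [if_pos h0, if_neg h0]
      simp
  rw [Finset.sum_congr rfl e, Finset.sum_add_distrib, Finset.sum_const, card_range, smul_eq_mul,
    Finset.sum_mul]

open Classical in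
/-- **FSP** -/
theorem fsp : FspStmt := by
  intro h L R P P' hP hP' hc
  induction R with
  | zero =>
    have e : ∀ Q : ℕ → Prop, ¬ Q 0 →
        ((range (2 ^ (L * 0))).filter (fun r => Q (fst h L 0 r))).card = 0 := by
      intro Q hQ
      rw [card_eq_zero, filter_eq_empty_iff]
      intro r _ hr
      exact hQ hr
    rw [e P hP, e P' hP']
  | succ R ih =>
    rw [rec_step h L R P hP, rec_step h L R P' hP', ih, hc]

end Pool.Agent.UMG.D.H64
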