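import Pool.Agent.UMG.StmtsD

/-!
# Squad UMG (MP_34c13a_lc), row WYB
-/

set_option autoImplicit false

namespace Pool.Agent.UMG.D.H64

open Finset

theorem list_prod (x : ℕ → ℕ) (N : ℕ) (L : List (ℕ × ℕ × ℕ)) :
    (∀ b ∈ L, 1 ≤ bsz b ∧ bsz b ≤ N) →
    (L.map (fun b => x (bsz b))).prod =
      ∏ j ∈ range N, x (j + 1) ^ L.countP (fun b => bsz b = j + 1) := by
  induction L with
  | nil =>
    intro _
    simp
  | cons b L ih =>
    intro h
    have hb := h b List.mem_cons_self
    have ih' := ih (fun b' hb' => h b' (List.mem_cons_of_mem _ hb'))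
    rw [List.map_cons, List.prod_cons, ih']
    have e : ∀ j ∈ range N, x (j + 1) ^ (b :: L).countP (fun b => bsz b = j + 1) =
        (if j = bsz b - 1 then x (bsz b) else 1) *
          x (j + 1) ^ L.countP (fun b => bsz b = j + 1) := by
      intro j _
      rw [List.countP_cons]
      by_cases hj : j = bsz b - 1
      · have hj' : bsz b = j + 1 := by omega
        rw [if_pos hj, if_pos (by simp [hj']), pow_succ, hj']
        ring
      · have hj' : ¬ bsz b = j + 1 := by omega
        rw [if_neg hj, if_neg (by simp [hj']), add_zero, one_mul]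
    rw [Finset.prod_congr rfl e, Finset.prod_mul_distrib, Finset.prod_ite_eq',
      if_pos (mem_range.2 (by omega))]

/-- **WYB** -/
theorem wyb : WybStmt := by
  intro M K g c h
  have h1 : wt (fX M K g) c = ∏ j ∈ range (K + M), fX M K g (j + 1) ^ cnt c (j + 1) :=
    list_prod (fX M K g) (K + M) (bund 0 c)
      (fun b hb => ⟨(h b hb).1, (h b hb).2.trans (Nat.le_add_left M K)⟩)
  have h2 : cfg M K g = ∏ j ∈ range (K + M), (if j < K then coef M (j + 1) (dg M g j) else 1) := by
    rw [Finset.prod_range_add]
    have e1 : ∏ j ∈ range K, (if j < K then coef M (j + 1) (dg M g j) else 1) = cfg M K g := by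
      unfold cfg
      exact Finset.prod_congr rfl fun j hj => if_pos (mem_range.1 hj)
    have e2 : ∏ j ∈ range M, (if K + j < K then coef M (K + j + 1) (dg M g (K + j)) else 1) = 1 :=
      Finset.prod_eq_one fun j _ => if_neg (by omega)
    rw [e1, e2, mul_one]
  rw [h1, h2, ← Finset.prod_mul_distrib]
  rfl

end Pool.Agent.UMG.D.H64
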